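import Mathlib
import Pool.Agent.Helper531.LocSepDefs
import Pool.Agent.Helper531.Sine

set_option autoImplicit false

namespace Pool.Agent.Results.MP_b1ea19_gt.SineCurve

open Pool.Agent.Helper531

/-- There is a (plane) continuum `X` such that, for every subcontinuum `C` of `X`, the set `L(C)` of
local separating points of `C` is connected (and it is nonempty as soon as `C` is nondegenerate),
while some connected subset `A` of `X` is not arcwise connected. -/
theorem result :
    ∃ X : Set (ℝ × ℝ), IsCompact X ∧ IsConnected X ∧
      (∀ C : Set (ℝ × ℝ), C ⊆ X → IsCompact C → IsConnected C →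
        IsPreconnected (LocalSeparatingPoints C) ∧
          (C.Nontrivial → (LocalSeparatingPoints C).Nonempty)) ∧
      ∃ A : Set (ℝ × ℝ), A ⊆ X ∧ IsConnected A ∧ ¬ ArcwiseConnected A :=
  ⟨Sine.X, Sine.X_compact, Sine.X_connected,
    fun _ hCX hC hCc => ⟨Sine.L_preconnected hCX hC hCc.isPreconnected,
      fun hnt => Sine.L_nonempty hCX hC hCc.isPreconnected hnt⟩,
    Sine.X, subset_rfl, Sine.X_connected, Sine.not_arcwise⟩

end Pool.Agent.Results.MP_b1ea19_gt.SineCurve
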